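import Pool.Agent.MP_18736b_co.Blocks

namespace Pool.Agent.Results.MP_18736b_co.CircumferenceBound

open Pool.Agent.MP_18736b_co

/-- **Q1, full answer (proof).** For every `t ≥ 3` and every finite graph `G`, the sum of
`c'_G(T) = C(γ_G(T), 2) / C(γ_G(T), t)` over all `t`-cliques `T` is at most the number of edges,
with equality if and only if every block of `G` is an isolated vertex or a complete graph on at
least `t` vertices. -/
theorem result (t : ℕ) (ht : 3 ≤ t) (V : Type*) [Fintype V] [DecidableEq V]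
    (G : SimpleGraph V) [DecidableRel G.Adj] :
    ∑ T ∈ G.cliqueFinset t, weight G T ≤ (G.edgeFinset.card : ℚ) ∧
    (∑ T ∈ G.cliqueFinset t, weight G T = (G.edgeFinset.card : ℚ) ↔
      ∀ H : G.Subgraph, IsBlock G H →
        (∃ v, H.verts = {v} ∧ ∀ w, ¬ G.Adj v w) ∨
        (t ≤ H.verts.ncard ∧ ∀ u ∈ H.verts, ∀ w ∈ H.verts, u ≠ w → H.Adj u w)) := by
  have h1 : G.cliqueFinset t = Kt G t := by
    ext T
    rw [SimpleGraph.mem_cliqueFinset_iff, mem_Kt]
  have h2 : (G.edgeFinset.card : ℚ) = ec G := by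
    unfold ec
    rw [← SimpleGraph.coe_edgeFinset, Set.ncard_coe_finset]
  rw [h1, h2]
  obtain ⟨h3, h4⟩ := main_ineq t ht (ec G) G le_rfl
  refine ⟨h3, ?_⟩
  have h5 : Q G t ↔ GoodBlocks G t := ⟨good_of_Q, Q_of_good ht⟩
  exact h4.trans h5

end Pool.Agent.Results.MP_18736b_co.CircumferenceBound
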